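import Pool.Agent.H18.HX.Targets

set_option autoImplicit false

open MvPolynomial
open Pool.Agent.H12.ZD (pmap v O Res DenseOrbit NoInv)
open Pool.Agent.H18.HIT Pool.Agent.H18.HX

namespace Pool.Agent.H91.HX

theorem pf_NSI : T_NSI := by
  intro L k _ _ I hI c hc
  by_contra hcon
  push Not at hcon
  apply hc
  have h1 : c ∈ vanishingIdeal k (zeroLocus k I) := by
    rw [mem_vanishingIdeal_iff]
    intro x hx
    have h2 := hcon x (fun q hq => by
      have := hx q hq
      exact this)
    exact h2
  rw [vanishingIdeal_zeroLocus_eq_radical, hI.radical] at h1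
  exact h1

end Pool.Agent.H91.HX
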