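import Pool.Agent.H18.HX.Targets

set_option autoImplicit false

open MvPolynomial
open Pool.Agent.H12.ZD (pmap v O Res DenseOrbit NoInv)
open Pool.Agent.H18.HIT Pool.Agent.H18.HX

namespace Pool.Agent.H91.HX

theorem totalDegree_aeval_le {L N : ℕ} {k : Type} [Field k] (l : Fin N → Po L k)
    (hl : ∀ i, (l i).IsHomogeneous 1) (q : Po N k) :
    (aeval l q).totalDegree ≤ q.totalDegree := by
  rw [aeval_def, eval₂_eq']
  refine totalDegree_finsetSum_le fun d hd => ?_
  refine (totalDegree_mul _ _).trans ?_
  have h1 : (algebraMap k (Po L k) (coeff d q)).totalDegree = 0 := totalDegree_C _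
  rw [h1, zero_add]
  refine (totalDegree_finsetProd _ _).trans ?_
  refine le_trans ?_ (le_totalDegree hd)
  rw [Finsupp.sum_fintype _ _ (fun _ => rfl)]
  refine Finset.sum_le_sum fun i _ => ?_
  refine (totalDegree_pow _ _).trans ?_
  have h2 := (hl i).totalDegree_le
  nlinarith

theorem pf_HLO (hRTD : T_RTD) : T_HLO := by
  intro L N k _ I l hl hinj t
  have i1 := (hRTD L k t).1
  have i2 := (hRTD N k t).1
  rw [← (hRTD N k t).2]
  unfold Hf
  let f : restrictTotalDegree (Fin N) k t →ₗ[k] Submodule.map (Ideal.Quotient.mkₐ k I).toLinearMap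
      (restrictTotalDegree (Fin L) k t) :=
    { toFun := fun q => ⟨Ideal.Quotient.mkₐ k I (aeval l q.1), ⟨aeval l q.1, by
        rw [SetLike.mem_coe, mem_restrictTotalDegree]
        exact (totalDegree_aeval_le l hl q.1).trans ((mem_restrictTotalDegree _ _ _).mp q.2), rfl⟩⟩
      map_add' := fun x y => by
        apply Subtype.ext
        show Ideal.Quotient.mkₐ k I (aeval l (x.1 + y.1)) = _
        rw [map_add, map_add]
        rfl
      map_smul' := fun c x => by
        apply Subtype.ext
        show Ideal.Quotient.mkₐ k I (aeval l (c • x.1)) = _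
        rw [map_smul, map_smul]
        rfl }
  have hf : Function.Injective f := by
    rw [← LinearMap.ker_eq_bot, LinearMap.ker_eq_bot']
    intro q hq
    apply Subtype.ext
    apply hinj
    have h1 : Ideal.Quotient.mkₐ k I (aeval l q.1) = 0 := congrArg Subtype.val hq
    exact Ideal.Quotient.eq_zero_iff_mem.mp h1
  exact LinearMap.finrank_le_finrank_of_injective hf

end Pool.Agent.H91.HX
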